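import Mathlib
import Pool.Agent.H730.CT.Lin

/-!
# Covering thresholds of simple matroids: smaller upper bounds

Let `V` be a set of dimension vectors with at most `t` entries, all of them at most `k`, `k ≥ 1`. The covering
threshold `C(V)` is at most

`t ^ (k - 1) * b(t) + (1 + t + ⋯ + t ^ (k - 2))`, where `b(t) = binom (t + 2) 2` for `t ≤ 4` and
`b(t) = t ^ 2 - t + 3` for `t ≥ 4`

(known: the same with `b(t) = t ^ 2 + t + 1`). For `k = 1` and `t ≤ 4` this is the bound
`binom (t + k + 1) (k + 1)` of Q1, which is false for `k = 1`, `t = 8` (library).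

Proof. Let `M` be a simple matroid with ground set `E` which is not covered while all proper restrictions
are. For each `y` there are at most `t` flats of rank at most `k + 1` not containing `y` which cover
`E - y`; call them `L y`. If `A` is one of them, then the intersections of `A` with the members of
`L z`, `z` in `A`, are such families of flats of rank at most `k` for the set `A`; so `|A|` is at most the bound
for `k - 1`, and `|E| ≤ 1 + t max |A|`. So let `k = 1`. If a line contains at least `t + 1` points then it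
belongs to all `L y` with `y` outside of it, so it has exactly `t + 1` points and `E` without it is covered in
the same way with `t - 1` in place of `t`. Otherwise all lines have at most `t` points. If `L y` and `L z` have
`c` common lines, then `|E| ≤ 2 + c t + (t - c) ^ 2`, since every point outside of the common lines, except `y`
and `z`, is the intersection of two of the other lines; so `|E| ≤ t ^ 2 - t + 3` if `0 < c < t`; and `c = t` is
impossible. If all `L y` are disjoint and `|E| > t ^ 2 - t + 3`, then all lines in them have at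
least three points, and there are `|E| - 1` different ones through each point `p`, one in each `L y`:
a contradiction.
-/

set_option autoImplicit false

namespace Pool.Agent.Results.MP_6a60a4_co.SmallerThresholds

open scoped Matroid

/-- A dimension vector: a non-increasing tuple of natural numbers. -/
def IsDimVector (v : List ℕ) : Prop := v.Pairwise (fun a b => b ≤ a)

/-- `M` is covered by `v = (v_1, …, v_t)`: its ground set is the union of flats `L_1, …, L_t` with
`r(L_i) ≤ v_i + 1`. -/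
def CoveredByVector {α : Type} (M : Matroid α) (v : List ℕ) : Prop :=
  ∃ L : Fin v.length → Set α,
    (∀ i, M.IsFlat (L i) ∧ M.eRk (L i) ≤ ((v.get i + 1 : ℕ) : ℕ∞)) ∧ ⋃ i, L i = M.E

/-- `M` is covered by the set `V`. -/
def CoveredBy {α : Type} (M : Matroid α) (V : Set (List ℕ)) : Prop :=
  ∃ v ∈ V, CoveredByVector M v

/-- Simple: no loops and no parallel elements. -/
def IsSimple {α : Type} (M : Matroid α) : Prop :=
  ∀ e ∈ M.E, ∀ f ∈ M.E, M.Indep {e, f}

/-- Every finite simple matroid all of whose restrictions to at most `N` elements are covered by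
`V` is covered by `V`. -/
def HasThreshold (V : Set (List ℕ)) (N : ℕ) : Prop :=
  ∀ (α : Type) (M : Matroid α), M.Finite → IsSimple M →
    (∀ X ⊆ M.E, X.ncard ≤ N → CoveredBy (M ↾ X) V) → CoveredBy M V

/-- `C_𝓜(V)`: the least `N` with the above property (`⊤` if there is none). -/
noncomputable def threshold (V : Set (List ℕ)) : ℕ∞ :=
  sInf ((fun n : ℕ => (n : ℕ∞)) '' {n | HasThreshold V n})

/-- the bound for `k = 1`: `binom (t + 2) 2` for `t ≤ 4` and `t ^ 2 - t + 3` for `t > 4` -/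
def b (t : ℕ) : ℕ := if t ≤ 4 then (t + 2).choose 2 else t ^ 2 - t + 3

/-- the bound: `t ^ (k - 1) * b t + 1 + t + ⋯ + t ^ (k - 2)` -/
def bound (t k : ℕ) : ℕ := t ^ (k - 1) * b t + ∑ i ∈ Finset.range (k - 1), t ^ i

/-- for every `y` in `E` the at most `t` flats in `𝓛 y`, of rank at most `k + 1`, do not contain `y` and cover the
other elements of `E` -/
structure Flats {α : Type} (M : Matroid α) (k t : ℕ) (E : Finset α) (𝓛 : α → Finset (Set α)) : Prop where
  sub : ∀ y ∈ E, y ∈ M.E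
  card : ∀ y ∈ E, (𝓛 y).card ≤ t
  flat : ∀ y ∈ E, ∀ A ∈ 𝓛 y, y ∉ A ∧ M.IsFlat A ∧ M.eRk A ≤ ((k + 1 : ℕ) : ℕ∞)
  cover : ∀ y ∈ E, ∀ x ∈ E, x ≠ y → ∃ A ∈ 𝓛 y, x ∈ A

/-- the case of lines -/
theorem Flats.sys {α : Type} {M : Matroid α} (hfin : M.Finite) (hs : IsSimple M) {t : ℕ} {E : Finset α}
    {𝓛 : α → Finset (Set α)} (h : Flats M 1 t E 𝓛) : Pool.Agent.H730.CT.Sys t E 𝓛 := by
  refine ⟨?_, h.card, fun y hy A hA => (h.flat y hy A hA).1, h.cover⟩
  intro y hy z hz A hA B hB u hu v hv huA huB hvA hvB huv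
  have hI : M.Indep {u, v} := hs u (h.sub u hu) v (h.sub v hv)
  have hr : M.eRk {u, v} = 2 := by
    rw [hI.eRk_eq_encard, Set.encard_pair huv]
  have hfl : ∀ F : Set α, M.IsFlat F → M.eRk F ≤ 2 → u ∈ F → v ∈ F → M.closure {u, v} = F := by
    intro F hF hF2 huF hvF
    have hsub : ({u, v} : Set α) ⊆ F := Set.insert_subset huF (Set.singleton_subset_iff.2 hvF)
    have := hfin
    have := (M.isRkFinite_set {u, v}).closure_eq_closure_of_subset_of_eRk_ge_eRk hsub
      (hr ▸ hF2)
    rw [this, hF.closure]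
  obtain ⟨-, hA1, hA2⟩ := h.flat y hy A hA
  obtain ⟨-, hB1, hB2⟩ := h.flat z hz B hB
  rw [← hfl A hA1 (by exact_mod_cast hA2) huA hvA, hfl B hB1 (by exact_mod_cast hB2) huB hvB]

/-- a proper subflat has a smaller rank -/
theorem eRk_le_of_ssubset {α : Type} {M : Matroid α} {F A : Set α} (hF : M.IsFlat F) (hFA : F ⊆ A)
    {e : α} (heE : e ∈ M.E) (heA : e ∈ A) (heF : e ∉ F) {n : ℕ} (hA : M.eRk A ≤ ((n + 1 : ℕ) : ℕ∞)) :
    M.eRk F ≤ (n : ℕ∞) := by
  have h1 : M.eRk (insert e F) = M.eRk F + 1 :=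
    Matroid.eRk_insert_eq_add_one ⟨heE, by rw [hF.closure]; exact heF⟩
  have h2 : M.eRk (insert e F) ≤ M.eRk A := M.eRk_mono (Set.insert_subset heA hFA)
  rw [h1] at h2
  have h3 : M.eRk F + 1 ≤ (n : ℕ∞) + 1 := by
    refine h2.trans (hA.trans ?_)
    push_cast
    exact le_rfl
  exact (ENat.add_le_add_iff_right (by simp)).1 h3

/-- the elements in a flat of the family -/
theorem Flats.inter {α : Type} {M : Matroid α} {k t : ℕ} {E : Finset α} {𝓛 : α → Finset (Set α)}
    (h : Flats M (k + 1) t E 𝓛) {y : α} (hy : y ∈ E) {A : Set α} (hA : A ∈ 𝓛 y) :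
    ∃ 𝓛' : α → Finset (Set α), Flats M k t (Pool.Agent.H730.CT.pts E A) 𝓛' := by
  classical
  obtain ⟨-, hA1, hA2⟩ := h.flat y hy A hA
  refine ⟨fun z => (𝓛 z).image (fun B => B ∩ A), ?_, ?_, ?_, ?_⟩
  · intro z hz
    exact h.sub z (Pool.Agent.H730.CT.mem_pts.1 hz).1
  · intro z hz
    exact Finset.card_image_le.trans (h.card z (Pool.Agent.H730.CT.mem_pts.1 hz).1)
  · intro z hz C hC
    obtain ⟨hzE, hzA⟩ := Pool.Agent.H730.CT.mem_pts.1 hz
    obtain ⟨B, hB, rfl⟩ := Finset.mem_image.1 hC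
    obtain ⟨hB0, hB1, hB2⟩ := h.flat z hzE B hB
    have hBA : M.IsFlat (B ∩ A) := by
      rw [Matroid.isFlat_iff_closure_eq]
      refine subset_antisymm (Set.subset_inter ?_ ?_)
        (M.subset_closure _ (Set.inter_subset_left.trans hB1.subset_ground))
      · exact (M.closure_subset_closure Set.inter_subset_left).trans_eq hB1.closure
      · exact (M.closure_subset_closure Set.inter_subset_right).trans_eq hA1.closure
    exact ⟨fun hz' => hB0 hz'.1, hBA, eRk_le_of_ssubset hBA Set.inter_subset_right (h.sub z hzE) hzA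
      (fun hz' => hB0 hz'.1) hA2⟩
  · intro z hz x hx hxz
    obtain ⟨hzE, -⟩ := Pool.Agent.H730.CT.mem_pts.1 hz
    obtain ⟨hxE, hxA⟩ := Pool.Agent.H730.CT.mem_pts.1 hx
    obtain ⟨B, hB, hxB⟩ := h.cover z hzE x hxE hxz
    exact ⟨B ∩ A, Finset.mem_image_of_mem _ hB, hxB, hxA⟩

theorem bd_eq (t : ℕ) : Pool.Agent.H730.CT.bd t = b t := by
  unfold Pool.Agent.H730.CT.bd b
  have h1 := Nat.le_mul_self t
  rw [sq]
  split_ifs <;> omega

theorem bound_succ (t k : ℕ) : bound t (k + 2) = 1 + t * bound t (k + 1) := by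
  unfold bound
  simp only [Nat.add_sub_cancel, show k + 2 - 1 = k + 1 from rfl]
  rw [Finset.sum_range_succ', mul_add, Finset.mul_sum, pow_succ]
  simp only [pow_succ]
  have : ∑ i ∈ Finset.range k, t ^ i * t = ∑ i ∈ Finset.range k, t * t ^ i :=
    Finset.sum_congr rfl fun i _ => mul_comm _ _
  rw [this]
  ring

/-- **The bound for the number of the elements.** -/
theorem Flats.card_le {α : Type} {M : Matroid α} (hfin : M.Finite) (hs : IsSimple M) (t : ℕ) : ∀ (k : ℕ)
    (E : Finset α) (𝓛 : α → Finset (Set α)), Flats M (k + 1) t E 𝓛 → E.card ≤ bound t (k + 1) := by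
  classical
  intro k
  induction k with
  | zero =>
    intro E 𝓛 h
    have h1 := Pool.Agent.H730.CT.card_le t E 𝓛 (h.sys hfin hs)
    rw [bd_eq] at h1
    simpa [bound] using h1
  | succ k ih =>
    intro E 𝓛 h
    rw [bound_succ]
    rcases E.eq_empty_or_nonempty with rfl | ⟨y, hy⟩
    · simp
    have h1 : E.erase y ⊆ (𝓛 y).biUnion (fun A => Pool.Agent.H730.CT.pts E A) := by
      intro x hx
      rw [Finset.mem_erase] at hx
      obtain ⟨A, hA, hxA⟩ := h.cover y hy x hx.2 hx.1
      rw [Finset.mem_biUnion]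
      exact ⟨A, hA, Pool.Agent.H730.CT.mem_pts.2 ⟨hx.2, hxA⟩⟩
    have h2 := (Finset.card_le_card h1).trans (Finset.card_biUnion_le_card_mul _ _ (bound t (k + 1))
      fun A hA => by
        obtain ⟨𝓛', h'⟩ := h.inter hy hA
        exact ih _ 𝓛' h')
    have h3 : (𝓛 y).card * bound t (k + 1) ≤ t * bound t (k + 1) :=
      Nat.mul_le_mul_right _ (h.card y hy)
    rw [Finset.card_erase_of_mem hy] at h2
    omega

/-- the flats of a critical matroid -/
theorem flats {α : Type} (M : Matroid α) (k t : ℕ) (V : Set (List ℕ))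
    (hV : ∀ v ∈ V, v.length ≤ t ∧ ∀ x ∈ v, x ≤ k) (X : Set α) (hXE : X ⊆ M.E)
    (hX : ¬ CoveredBy (M ↾ X) V) (y : α) (hc : CoveredBy (M ↾ (X \ {y})) V) :
    ∃ 𝓛 : Finset (Set α), 𝓛.card ≤ t ∧
      (∀ A ∈ 𝓛, y ∉ A ∧ M.IsFlat A ∧ M.eRk A ≤ ((k + 1 : ℕ) : ℕ∞)) ∧
      ∀ x ∈ X, x ≠ y → ∃ A ∈ 𝓛, x ∈ A := by
  classical
  obtain ⟨v, hv, L, hL, hU⟩ := hc
  have hLi : ∀ i, L i ⊆ X \ {y} := by
    intro i
    have h1 := Set.subset_iUnion L i
    rw [hU] at h1
    exact h1
  have hrk : ∀ i, M.eRk (L i) ≤ ((v.get i + 1 : ℕ) : ℕ∞) := by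
    intro i
    rw [← M.restrict_eRk_eq (hLi i)]
    exact (hL i).2
  refine ⟨Finset.univ.image (fun i => M.closure (L i)), ?_, ?_, ?_⟩
  · refine Finset.card_image_le.trans ?_
    rw [Finset.card_univ, Fintype.card_fin]
    exact (hV v hv).1
  · intro A hA
    obtain ⟨i, -, rfl⟩ := Finset.mem_image.1 hA
    refine ⟨fun hy => hX ⟨v, hv, fun j => M.closure (L j) ∩ X, fun j => ?_, ?_⟩, M.isFlat_closure _, ?_⟩
    · have hj : L j ⊆ X := (hLi j).trans Set.sdiff_subset
      show (M ↾ X).IsFlat (M.closure (L j) ∩ X) ∧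
        (M ↾ X).eRk (M.closure (L j) ∩ X) ≤ ((v.get j + 1 : ℕ) : ℕ∞)
      rw [← M.restrict_closure_eq hj hXE]
      refine ⟨Matroid.isFlat_closure _, ?_⟩
      rw [Matroid.eRk_closure_eq, M.restrict_eRk_eq hj]
      exact hrk j
    · ext x
      rw [Set.mem_iUnion]
      constructor
      · rintro ⟨j, -, hx⟩
        exact hx
      · intro hx
        have hx : x ∈ X := hx
        by_cases hxy : x = y
        · exact ⟨i, hxy ▸ hy, hx⟩
        · have h1 : x ∈ ⋃ i, L i := by
            rw [hU]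
            exact ⟨hx, hxy⟩
          obtain ⟨j, hj⟩ := Set.mem_iUnion.1 h1
          exact ⟨j, M.subset_closure (L j) ((hLi j).trans (Set.sdiff_subset.trans hXE)) hj, hx⟩
    · rw [Matroid.eRk_closure_eq]
      refine (hrk i).trans ?_
      have h1 := (hV v hv).2 (v.get i) (List.get_mem v i)
      exact_mod_cast (by omega : v.get i + 1 ≤ k + 1)
  · intro x hx hxy
    have h1 : x ∈ ⋃ i, L i := by
      rw [hU]
      exact ⟨hx, hxy⟩
    obtain ⟨j, hj⟩ := Set.mem_iUnion.1 h1
    exact ⟨M.closure (L j), Finset.mem_image_of_mem _ (Finset.mem_univ j),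
      M.subset_closure (L j) ((hLi j).trans (Set.sdiff_subset.trans hXE)) hj⟩

theorem hasThreshold (k t : ℕ) (V : Set (List ℕ)) (hV : ∀ v ∈ V, v.length ≤ t ∧ ∀ x ∈ v, x ≤ k + 1) :
    HasThreshold V (bound t (k + 1)) := by
  classical
  intro α M hfin hs hcov
  by_contra hM
  obtain ⟨X, hX, hmin⟩ := (measure (Set.ncard (α := α))).wf.has_min
    {X : Set α | X ⊆ M.E ∧ ¬ CoveredBy (M ↾ X) V} ⟨M.E, subset_rfl, by
      rw [Matroid.restrict_ground_eq_self]
      exact hM⟩
  have hXf : X.Finite := hfin.ground_finite.subset hX.1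
  have hc : ∀ y ∈ X, CoveredBy (M ↾ (X \ {y})) V := by
    intro y hy
    by_contra hcon
    refine hmin (X \ {y}) ⟨Set.sdiff_subset.trans hX.1, hcon⟩ ?_
    show (X \ {y}).ncard < X.ncard
    exact Set.ncard_sdiff_singleton_lt_of_mem hy hXf
  choose! 𝓛 h1 h2 h3 using fun y (hy : y ∈ X) => flats M (k + 1) t V hV X hX.1 hX.2 y (hc y hy)
  have hsys : Flats M (k + 1) t hXf.toFinset 𝓛 :=
    ⟨fun y hy => hX.1 (hXf.mem_toFinset.1 hy), fun y hy => h1 y (hXf.mem_toFinset.1 hy),
      fun y hy A hA => h2 y (hXf.mem_toFinset.1 hy) A hA,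
      fun y hy x hx hxy => h3 y (hXf.mem_toFinset.1 hy) x (hXf.mem_toFinset.1 hx) hxy⟩
  have h4 := hsys.card_le hfin hs t k
  refine hX.2 (hcov X hX.1 ?_)
  rw [Set.ncard_eq_toFinset_card X hXf]
  exact h4

/-- **Upper bounds for the covering thresholds.** Let `V` be a set of dimension vectors with at most
`t` entries, all of them at most `k`, where `k ≥ 1`.
(1) `C(V) ≤ t ^ (k - 1) * b(t) + 1 + t + ⋯ + t ^ (k - 2)`, where `b(t) = binom (t + 2) 2` for `t ≤ 4` and
`b(t) = t ^ 2 - t + 3` for `t > 4`.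
(2) For `k = 1` and `t ≤ 4` the bound of Q1 is true: `C(V) ≤ binom (t + k + 1) (k + 1)`. -/
theorem result (t k : ℕ) (hk : 1 ≤ k) (V : Set (List ℕ))
    (hV : ∀ v ∈ V, IsDimVector v ∧ v.length ≤ t ∧ ∀ x ∈ v, x ≤ k) :
    threshold V ≤ bound t k ∧
    (k = 1 → t ≤ 4 → threshold V ≤ ((t + k + 1).choose (k + 1) : ℕ)) := by
  obtain ⟨n, rfl⟩ : ∃ n, k = n + 1 := ⟨k - 1, by omega⟩
  have key : threshold V ≤ bound t (n + 1) :=
    sInf_le ⟨bound t (n + 1), hasThreshold n t V (fun v hv => (hV v hv).2), rfl⟩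
  refine ⟨key, fun hn ht => ?_⟩
  obtain rfl : n = 0 := by omega
  refine key.trans (le_of_eq ?_)
  simp [bound, b, ht]

end Pool.Agent.Results.MP_6a60a4_co.SmallerThresholds
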